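import Pool.Agent.PSS.StmtsS0

/-!
# Squad PSS, block S0, row BBK: Brauer kernels of the Brauer quotient
-/

set_option autoImplicit false

open scoped BigOperators

noncomputable section

namespace Pool.Agent.PSS.S0.H62

open Pool.Agent.PFC (tw IsTv)
open Pool.Agent.PFD.D2b (FrR)
open Pool.Agent.PSS Pool.Agent.PSS.S0

section

variable {R V A B : Type} [CommRing R] [CommGroup V] [Ring A] [Algebra R A] [Ring B] [Algebra R B]

theorem bw_ap (α : V →* A) (u v : V) (m : A) : bw R α (u, v) m = α u * m * α v⁻¹ := by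
  show α u * (m * α v⁻¹) = _
  rw [mul_assoc]

theorem cw_ap (α : V →* A) (u : V) (m : A) : cw R α u m = α u * m * α u⁻¹ := bw_ap α u u m

theorem al_inv (α : V →* A) (v : V) : α v⁻¹ * α v = 1 := by
  rw [← map_mul, inv_mul_cancel, map_one]

theorem al_inv' (α : V →* A) (v : V) : α v * α v⁻¹ = 1 := by
  rw [← map_mul, mul_inv_cancel, map_one]

theorem cw_mul (α : V →* A) (u : V) (m n : A) :
    cw R α u (m * n) = cw R α u m * cw R α u n := by
  rw [cw_ap, cw_ap, cw_ap]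
  calc α u * (m * n) * α u⁻¹ = α u * m * (1 * n) * α u⁻¹ := by
        rw [one_mul]
        noncomm_ring
    _ = α u * m * ((α u⁻¹ * α u) * n) * α u⁻¹ := by rw [al_inv]
    _ = _ := by noncomm_ring

theorem fx_mul (α : V →* A) (Q : Subgroup V) {m n : A} (hm : m ∈ FxR (cw R α) Q)
    (hn : n ∈ FxR (cw R α) Q) : m * n ∈ FxR (cw R α) Q := by
  intro q hq
  rw [cw_mul, hm q hq, hn q hq]

theorem fx_al (α : V →* A) (Q : Subgroup V) (v : V) : α v ∈ FxR (cw R α) Q := by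
  intro q _
  rw [cw_ap, ← map_mul, ← map_mul, mul_comm q v, mul_assoc, mul_inv_cancel, mul_one]

theorem fx_mono {H M : Type} [Group H] [AddCommGroup M] [Module R M] (ρ : H →* (M →ₗ[R] M))
    {P P' : Subgroup H} (h : P ≤ P') {m : M} (hm : m ∈ FxR ρ P') : m ∈ FxR ρ P :=
  fun g hg => hm g (h hg)

/-- fixed by two subgroups -/
theorem fx_sup {H M : Type} [Group H] [AddCommGroup M] [Module R M] (ρ : H →* (M →ₗ[R] M))
    {P Q : Subgroup H} {m : M} (h1 : m ∈ FxR ρ P) (h2 : m ∈ FxR ρ Q) : m ∈ FxR ρ (P ⊔ Q) := by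
  let S : Subgroup H :=
    { carrier := {g | ρ g m = m}
      mul_mem' := by
        intro a b ha hb
        show ρ (a * b) m = m
        have ha' : ρ a m = m := ha
        have hb' : ρ b m = m := hb
        rw [map_mul]
        show ρ a (ρ b m) = m
        rw [hb', ha']
      one_mem' := by
        show ρ 1 m = m
        rw [map_one]
        rfl
      inv_mem' := by
        intro a ha
        show ρ a⁻¹ m = m
        have ha' : ρ a m = m := ha
        calc ρ a⁻¹ m = ρ a⁻¹ (ρ a m) := by rw [ha']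
          _ = (ρ a⁻¹ * ρ a) m := rfl
          _ = m := by
            rw [← map_mul, inv_mul_cancel, map_one]
            rfl }
  have h3 : P ⊔ Q ≤ S := sup_le (fun g hg => h1 g hg) (fun g hg => h2 g hg)
  exact fun g hg => h3 hg

/-- a point fixed by two subgroups -/
theorem pt_sup {H Ω : Type} [Group H] [MulAction H Ω] {P Q : Subgroup H} {ω : Ω}
    (h1 : ∀ g ∈ P, g • ω = ω) (h2 : ∀ g ∈ Q, g • ω = ω) : ∀ g ∈ P ⊔ Q, g • ω = ω := by
  have h3 : P ⊔ Q ≤ MulAction.stabilizer H ω := sup_le (fun g hg => h1 g hg) (fun g hg => h2 g hg)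
  exact fun g hg => h3 hg

theorem be_sum {α : V →* A} {Q : Subgroup V} {αB : V →* B} {β : A → B} (h : IsBQ R α Q αB β)
    {ι : Type} (s : Finset ι) (f : ι → A) (r : ι → R) (hf : ∀ i, f i ∈ FxR (cw R α) Q) :
    β (∑ i ∈ s, r i • f i) = ∑ i ∈ s, r i • β (f i) := by
  classical
  induction s using Finset.induction_on with
  | empty =>
    rw [Finset.sum_empty, Finset.sum_empty]
    have h0 := h.smul 0 0 (Submodule.zero_mem _)
    rwa [zero_smul, zero_smul] at h0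
  | insert i s hi ih =>
    rw [Finset.sum_insert hi, Finset.sum_insert hi, h.add, ih, h.smul _ _ (hf i)]
    · exact Submodule.smul_mem _ _ (hf i)
    · exact Submodule.sum_mem _ fun j _ => Submodule.smul_mem _ _ (hf j)

end

theorem bbk (hfco : FcoStmt) (hfbk : FbkStmt) (hsfq : SfqStmt) (hlmb : LmbStmt)
    (hrfd : RfdStmt) : BbkStmt := by
  classical
  intro ℓ _ R V E A B K _ _ _ _ _ _ _ _ _ φ α Q αB β lam x y P hR hV hper hRF hBQ
  obtain ⟨Ω, _, _, b, c, hF, hst⟩ := hper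
  have hfree : ∀ (v : V) (ω : Ω), ((1, v) : V × V) • ω = ω → v = 1 := by
    intro v ω h
    obtain ⟨e, S, hS⟩ := hst ω
    have h1 : ((1, v) : V × V) ∈ MulAction.stabilizer (V × V) ω := h
    rw [hS] at h1
    obtain ⟨s, -, hs⟩ := h1
    have h2 : φ e s = 1 := congrArg Prod.fst hs
    have h3 : s = v := congrArg Prod.snd hs
    rw [← h3]
    have h4 : φ e s = φ e 1 := by rw [h2, map_one]
    exact (φ e).injective h4
  obtain ⟨d, hcd, hSF⟩ := hrfd R V A K Ω α lam x y b c hRF hF hfree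
  obtain ⟨lamB, hlam⟩ := hlmb ℓ R V A B α Q αB β lam hR hV hRF.sym hBQ
  have hfin : Finite (OQt Q 1 Ω) := inferInstance
  let iF : Fintype (OQt Q 1 Ω) := Fintype.ofFinite _
  obtain ⟨hbd, hSB⟩ := hsfq R V A B Ω α Q αB β lam lamB b d 1 1 1 hSF hBQ hlam (one_mul 1)
    (one_mul 1) (fun u => by rw [one_mul, mul_one]; rfl)
  have hbQ : ∀ ω : OQt Q 1 Ω, b ω ∈ FxR (cw R α) Q := by
    intro ω
    have h := (hbd ω.1 ω.2).1
    rwa [mul_one] at h
  have hdQ : ∀ ω : OQt Q 1 Ω, d ω ∈ FxR (cw R α) Q := by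
    intro ω
    have h := (hbd ω.1 ω.2).2
    rwa [one_mul] at h
  -- the actions of `V`
  let actA : MulAction V Ω :=
    MulAction.compHom Ω (MonoidHom.prod (MonoidHom.id V) (MonoidHom.id V))
  let actB : MulAction V (OQt Q 1 Ω) :=
    MulAction.compHom (OQt Q 1 Ω) (MonoidHom.prod (MonoidHom.id V) (MonoidHom.id V))
  have hact : ∀ (v : V) (ω : OQt Q 1 Ω), ((v • ω : OQt Q 1 Ω) : Ω) = v • (ω : Ω) :=
    fun _ _ => rfl
  have hFA : FrR (cw R α) b c := by
    obtain ⟨f1, f2, f3⟩ := hF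
    exact ⟨fun v ω => f1 (v, v) ω, fun v ω n => f2 (v, v) ω n, f3⟩
  let cB : OQt Q 1 Ω → (B →ₗ[R] R) := fun ω => lamB.comp (LinearMap.mulLeft R (β (d ω)))
  have hcB : ∀ (ω : OQt Q 1 Ω) (z : B), cB ω z = lamB (β (d ω) * z) := fun _ _ => rfl
  have hFB : FrR (cw R αB) (fun ω : OQt Q 1 Ω => β (b ω)) cB := by
    refine ⟨fun v ω => ?_, fun v ω n => ?_, fun n => ?_⟩
    · have h := hSB.eb (v, v) ω
      simp only [mul_one] at h
      rw [cw_ap]
      exact h
    · have h := hSB.ed (v, v) ω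
      simp only [one_mul] at h
      rw [hcB, hcB, cw_ap]
      have h' : β (d ((v • ω : OQt Q 1 Ω))) = αB v * β (d ω) * αB v⁻¹ := h
      rw [h']
      have e : αB v * β (d ω) * αB v⁻¹ * (αB v * n * αB v⁻¹) =
          αB v * (β (d ω) * n * αB v⁻¹) := by
        calc _ = αB v * β (d ω) * (αB v⁻¹ * αB v) * n * αB v⁻¹ := by noncomm_ring
          _ = _ := by
            rw [al_inv]
            noncomm_ring
      rw [e, hSB.sym, mul_assoc, al_inv, mul_one]
    · have h := hSB.fr n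
      simp only [one_mul, mul_one] at h
      exact h
  have hval : ∀ a ∈ FxR (cw R α) Q, ∀ ω : OQt Q 1 Ω, cB ω (β a) = c ω a := by
    intro a ha ω
    rw [hcB, ← hBQ.mul _ (hdQ ω) a ha, hlam _ (fx_mul α Q (hdQ ω) ha), hcd]
  have hOQ : ∀ ω : Ω, (∀ q ∈ Q, q • ω = ω) → ω ∈ OQt Q 1 Ω := by
    intro ω h q hq
    exact h q hq
  have hOQ' : ∀ ω : OQt Q 1 Ω, ∀ q ∈ Q, q • (ω : Ω) = ω := by
    intro ω q hq
    exact ω.2 q hq
  refine ⟨fun a ha => ⟨?_, ?_, ?_⟩, ?_⟩
  · intro p hp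
    have haQ := fx_mono (cw R α) le_sup_right ha
    have h1 : cw R α p a = a := ha p ((le_sup_left : P ≤ P ⊔ Q) hp)
    rw [cw_ap] at h1
    rw [cw_ap, ← hBQ.om, ← hBQ.om, ← hBQ.mul _ (fx_al α Q p) a haQ,
      ← hBQ.mul _ (fx_mul α Q (fx_al α Q p) haQ) _ (fx_al α Q p⁻¹), h1]
  · intro hm
    have haQ := fx_mono (cw R α) le_sup_right ha
    refine hfbk R V A Ω (cw R α) b c hFA (P ⊔ Q) a ha fun ω hω => ?_
    have hωQ : ω ∈ OQt Q 1 Ω := hOQ ω fun q hq => hω q ((le_sup_right : Q ≤ P ⊔ Q) hq)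
    have h1 := hfco ℓ R V B (OQt Q 1 Ω) (cw R αB) _ cB hR hV hFB P (β a) hm ⟨ω, hωQ⟩ (by
      intro p hp
      exact Subtype.ext (hω p ((le_sup_left : P ≤ P ⊔ Q) hp)))
    rwa [hval a haQ] at h1
  · intro hm
    have haQ := fx_mono (cw R α) le_sup_right ha
    refine hfbk R V B (OQt Q 1 Ω) (cw R αB) _ cB hFB P (β a) ?_ fun ω hω => ?_
    · intro p hp
      have h1 : cw R α p a = a := ha p ((le_sup_left : P ≤ P ⊔ Q) hp)
      rw [cw_ap] at h1
      rw [cw_ap, ← hBQ.om, ← hBQ.om, ← hBQ.mul _ (fx_al α Q p) a haQ,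
        ← hBQ.mul _ (fx_mul α Q (fx_al α Q p) haQ) _ (fx_al α Q p⁻¹), h1]
    · rw [hval a haQ]
      refine hfco ℓ R V A Ω (cw R α) b c hR hV hFA (P ⊔ Q) a hm ω ?_
      refine pt_sup (fun p hp => ?_) (hOQ' ω)
      exact congrArg Subtype.val (hω p hp)
  · intro z hz
    have hcz : ∀ p ∈ P, ∀ ω : OQt Q 1 Ω, cB (p • ω) z = cB ω z := by
      intro p hp ω
      have h := hFB.2.1 p ω z
      rwa [hz p hp] at h
    have haQ : ∑ ω : OQt Q 1 Ω, cB ω z • b ω ∈ FxR (cw R α) Q :=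
      Submodule.sum_mem _ fun ω _ => Submodule.smul_mem _ _ (hbQ ω)
    refine ⟨∑ ω : OQt Q 1 Ω, cB ω z • b ω, fx_sup _ ?_ haQ, ?_⟩
    · intro p hp
      rw [map_sum]
      have e1 : ∀ ω : OQt Q 1 Ω, cw R α p (cB ω z • b ω) =
          cB (p • ω) z • b ((p • ω : OQt Q 1 Ω)) := by
        intro ω
        rw [map_smul, hcz p hp, hact, hFA.1]
      rw [Finset.sum_congr rfl fun ω _ => e1 ω]
      exact Equiv.sum_comp (MulAction.toPerm p) fun ω : OQt Q 1 Ω => cB ω z • b ω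
    · rw [be_sum hBQ _ _ _ hbQ]
      exact hFB.2.2 z

end Pool.Agent.PSS.S0.H62
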