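import Pool.Agent.PSS.StmtsS5

/-! Squad PSS (MP_6a3f1a_al), block S5, row LNL (helper62): the centraliser of `V` in `N_W(A)` is
local. -/

set_option autoImplicit false

open scoped BigOperators

noncomputable section

namespace Pool.Agent.PSS.S5.H62

open Pool.Agent.PFC (tw IsTv Cnr Cz PIn Ctf Lcq PmzStmt PS bi)

/-- the right ideal generated by the `w - 1`, `w ∈ W` -/
def iw (F : Type) {V B : Type} [Field F] [CommGroup V] [Ring B] [Algebra F B] (h : V →* B)
    (W : Subgroup V) : Submodule F B :=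
  Submodule.span F {x : B | ∃ w ∈ W, ∃ b : B, x = (h w - 1) * b}

theorem sum_inv {V M : Type} [CommGroup V] [Fintype V] [AddCommGroup M] (Q : Subgroup V)
    (ψ : V → M) (hψ : ∀ v, ∀ q ∈ Q, ψ (v * q) = ψ v) (hQ : ∀ m : M, Nat.card Q • m = 0) :
    ∑ v, ψ v = 0 := by
  classical
  have : Fintype (V ⧸ Q) := Fintype.ofFinite _
  have : Fintype Q := Fintype.ofFinite _
  let e : (V ⧸ Q) × Q ≃ V :=
    { toFun := fun p => Quotient.out p.1 * p.2
      invFun := fun v => (QuotientGroup.mk v, ⟨(Quotient.out (QuotientGroup.mk v : V ⧸ Q))⁻¹ * v,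
        by
          apply QuotientGroup.eq.1
          exact QuotientGroup.out_eq' _⟩)
      left_inv := by
        rintro ⟨c, q⟩
        have h1 : (QuotientGroup.mk (Quotient.out c * (q : V)) : V ⧸ Q) = c := by
          rw [QuotientGroup.mk_mul_of_mem _ q.2]
          exact QuotientGroup.out_eq' c
        apply Prod.ext
        · exact h1
        · apply Subtype.ext
          change (Quotient.out (QuotientGroup.mk (Quotient.out c * (q : V)) : V ⧸ Q))⁻¹ *
            (Quotient.out c * (q : V)) = q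
          rw [h1, inv_mul_cancel_left]
      right_inv := by
        intro v
        change Quotient.out (QuotientGroup.mk v : V ⧸ Q) *
          ((Quotient.out (QuotientGroup.mk v : V ⧸ Q))⁻¹ * v) = v
        rw [mul_inv_cancel_left] }
  rw [← Equiv.sum_comp e, Fintype.sum_prod_type]
  apply Finset.sum_eq_zero
  intro c _
  have h1 : ∀ q : Q, ψ (e (c, q)) = ψ (Quotient.out c) := fun q => hψ _ _ q.2
  rw [Finset.sum_congr rfl (fun q _ => h1 q), Finset.sum_const, Finset.card_univ,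
    ← Nat.card_eq_fintype_card]
  exact hQ _

theorem gsum (ℓ : ℕ) [Fact ℓ.Prime] {F V B : Type} [Field F] [CharP F ℓ] [CommGroup V] [Fintype V]
    [Ring B] [Algebra F B] (h : V →* B) (W : Subgroup V) (hV : IsPGroup ℓ V) (w' : V)
    (hw : w' ∈ W) (hw1 : w' ≠ 1) (g : V → F) (hg : ∀ v, g (v * w') = g v) :
    ∑ v, g v • h v ∈ iw F h W := by
  classical
  let Q : Subgroup V := Subgroup.zpowers w'
  have hQW : Q ≤ W := by
    rw [Subgroup.zpowers_le]
    exact hw
  have hgQ : ∀ q ∈ Q, ∀ v, g (v * q) = g v := by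
    have key : Q ≤ { carrier := {q | ∀ v, g (v * q) = g v}
                     mul_mem' := by
                       intro a b ha hb v
                       rw [← mul_assoc, hb, ha]
                     one_mem' := by
                       intro v
                       rw [mul_one]
                     inv_mem' := by
                       intro a ha v
                       rw [← ha (v * a⁻¹), inv_mul_cancel_right] } := by
      rw [Subgroup.zpowers_le]
      exact hg
    exact fun q hq => key hq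
  have hcard : ((Nat.card Q : ℕ) : F) = 0 := by
    rw [CharP.cast_eq_zero_iff F ℓ]
    have hQp : IsPGroup ℓ Q := hV.to_subgroup Q
    have hnt : Nontrivial Q := by
      refine ⟨⟨⟨w', Subgroup.mem_zpowers w'⟩, 1, ?_⟩⟩
      intro h1
      exact hw1 (congrArg Subtype.val h1)
    rcases hQp.card_eq_or_dvd with h1 | h1
    · exact (Finite.one_lt_card (α := Q)).ne' h1 |>.elim
    · exact h1
  let r : V → V := fun v => Quotient.out (QuotientGroup.mk v : V ⧸ Q)
  have hr : ∀ v, (r v)⁻¹ * v ∈ Q := by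
    intro v
    apply QuotientGroup.eq.1
    exact QuotientGroup.out_eq' _
  have hrq : ∀ v, ∀ q ∈ Q, r (v * q) = r v := by
    intro v q hq
    change Quotient.out (QuotientGroup.mk (v * q) : V ⧸ Q) = _
    rw [QuotientGroup.mk_mul_of_mem _ hq]
  have h2 : ∑ v, g v • h (r v) = 0 := by
    apply sum_inv Q
    · intro v q hq
      rw [hgQ q hq, hrq v q hq]
    · intro m
      rw [← Nat.cast_smul_eq_nsmul F, hcard, zero_smul]
  have h3 : ∑ v, g v • h v = ∑ v, g v • (h v - h (r v)) := by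
    have h4 : ∑ v, g v • (h v - h (r v)) = ∑ v, g v • h v - ∑ v, g v • h (r v) := by
      rw [← Finset.sum_sub_distrib]
      exact Finset.sum_congr rfl fun v _ => smul_sub _ _ _
    rw [h4, h2, sub_zero]
  rw [h3]
  apply Submodule.sum_mem
  intro v _
  apply Submodule.smul_mem
  apply Submodule.subset_span
  refine ⟨(r v)⁻¹ * v, hQW (hr v), h (r v), ?_⟩
  rw [sub_mul, one_mul, ← map_mul, inv_mul_cancel_comm]

theorem iw_mulR {F V B : Type} [Field F] [CommGroup V] [Ring B] [Algebra F B] (h : V →* B)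
    (W : Subgroup V) {x : B} (hx : x ∈ iw F h W) (b : B) : x * b ∈ iw F h W := by
  have key : iw F h W ≤ (iw F h W).comap (LinearMap.mulRight F b) := by
    apply Submodule.span_le.2
    rintro _ ⟨w, hw, c, rfl⟩
    apply Submodule.subset_span
    exact ⟨w, hw, c * b, mul_assoc _ _ _⟩
  exact key hx

theorem iw_mulL {F V B : Type} [Field F] [CommGroup V] [Ring B] [Algebra F B] (h : V →* B)
    (W : Subgroup V) {x : B} (hx : x ∈ iw F h W) (b : B) (hb : ∀ v, h v * b = b * h v) :
    b * x ∈ iw F h W := by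
  have key : iw F h W ≤ (iw F h W).comap (LinearMap.mulLeft F b) := by
    apply Submodule.span_le.2
    rintro _ ⟨w, hw, c, rfl⟩
    apply Submodule.subset_span
    refine ⟨w, hw, b * c, ?_⟩
    change b * ((h w - 1) * c) = (h w - 1) * (b * c)
    have h1 : b * (h w - 1) = (h w - 1) * b := by
      rw [mul_sub, sub_mul, hb w, mul_one, one_mul]
    rw [← mul_assoc, ← mul_assoc, h1]
  exact key hx

/-- `1 + x` is a unit for `x` in the ideal which commutes with `V` -/
theorem unt (hNak : NakStmt) (ℓ : ℕ) [Fact ℓ.Prime] {F V B : Type} [Field F] [CharP F ℓ]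
    [CommGroup V] [Fintype V] [Ring B] [Algebra F B] [FiniteDimensional F B] (h : V →* B)
    (W : Subgroup V) (hV : IsPGroup ℓ V) {x : B} (hx : x ∈ iw F h W)
    (hc : ∀ v, h v * x = x * h v) : ∃ y, (1 + x) * y = 1 ∧ y * (1 + x) = 1 := by
  let ρ : W →* (B →ₗ[F] B) :=
    { toFun := fun w => LinearMap.mulLeft F (h w)
      map_one' := by
        ext b
        simp
      map_mul' := by
        intro a b
        ext c
        simp }
  have hρ : ∀ (w : W) (m : B), ρ w m = h w * m := fun _ _ => rfl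
  have key := hNak ℓ F W B ρ ⊤ (LinearMap.range (LinearMap.mulLeft F (1 + x)))
    (hV.to_subgroup W) (fun _ _ _ => Submodule.mem_top) (by
      rintro w _ ⟨b, rfl⟩
      refine ⟨h w * b, ?_⟩
      rw [hρ]
      change (1 + x) * (h w * b) = h w * ((1 + x) * b)
      rw [← mul_assoc, ← mul_assoc, add_mul, mul_add, one_mul, mul_one, hc]) (by
      intro m _
      refine ⟨(1 + x) * m, ⟨m, rfl⟩, ?_⟩
      have h1 : m - (1 + x) * m = -(x * m) := by
        rw [add_mul, one_mul]
        abel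
      rw [h1]
      apply Submodule.neg_mem
      have h2 : iw F h W ≤ Submodule.span F {x : B | ∃ v, ∃ d ∈ (⊤ : Submodule F B),
          x = ρ v d - d} := by
        apply Submodule.span_le.2
        rintro _ ⟨w, hw, c, rfl⟩
        apply Submodule.subset_span
        refine ⟨⟨w, hw⟩, c, Submodule.mem_top, ?_⟩
        rw [hρ, sub_mul, one_mul]
      exact h2 (iw_mulR h W hx m))
  obtain ⟨y, hy⟩ := key (Submodule.mem_top (x := (1 : B)))
  have hy1 : (1 + x) * y = 1 := hy
  refine ⟨y, hy1, ?_⟩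
  have hsur : Function.Surjective (LinearMap.mulLeft F (1 + x)) := by
    intro b
    refine ⟨y * b, ?_⟩
    change (1 + x) * (y * b) = b
    rw [← mul_assoc, hy1, one_mul]
  have hinj := LinearMap.injective_iff_surjective.2 hsur
  apply hinj
  change (1 + x) * (y * (1 + x)) = (1 + x) * 1
  rw [← mul_assoc, hy1, one_mul, mul_one]

/-- `d` with `d w' = d` is in the ideal -/
theorem dmem (ℓ : ℕ) [Fact ℓ.Prime] {F V B K : Type} [Field F] [CharP F ℓ] [CommGroup V]
    [Fintype V] [Fintype K] [Ring B] [Algebra F B] (h : V →* B) (W : Subgroup V)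
    (hV : IsPGroup ℓ V) (lam : B →ₗ[F] F) (x y : K → B) (hRF : RF F h lam x y) (w' : V)
    (hw : w' ∈ W) (hw1 : w' ≠ 1) (d : B) (hd : d * h w' = d)
    (hI : ∀ b : B, ∀ z ∈ iw F h W, b * z ∈ iw F h W) : d ∈ iw F h W := by
  have hd' : d * h w'⁻¹ = d := by
    calc d * h w'⁻¹ = d * h w' * h w'⁻¹ := by rw [hd]
      _ = d := by rw [mul_assoc, ← map_mul, mul_inv_cancel, map_one, mul_one]
  have h1 := hRF.e1 d
  rw [← h1]
  apply Submodule.sum_mem
  intro k _
  have h2 : ∑ v, lam (h v⁻¹ * y k * d) • (x k * h v) =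
      x k * ∑ v, lam (h v⁻¹ * y k * d) • h v := by
    rw [Finset.mul_sum]
    exact Finset.sum_congr rfl fun v _ => (mul_smul_comm _ _ _).symm
  rw [h2]
  apply hI
  apply gsum ℓ h W hV w' hw hw1
  intro v
  have h3 : h (v * w')⁻¹ * y k * d = h w'⁻¹ * (h v⁻¹ * y k * d) := by
    rw [mul_inv_rev, map_mul h]
    simp only [mul_assoc]
  rw [h3, hRF.sym, mul_assoc, hd']

theorem lnl (hLnp : LnpStmt) (hLnt : LntStmt) (hNak : NakStmt) : LnlStmt := by
  classical
  intro ℓ _ F V E A B _ _ _ _ _ _ _ _ _ φ α W N hV hW hL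
  obtain ⟨hfd, hPer, hUni, lam, K, _, x, y, hRF, hlam⟩ := hLnp ℓ F V E A B φ α W N hV hW hL
  have hfM : Finite (MulAut W) := inferInstance
  have : Fintype (MulAut W) := Fintype.ofFinite _
  have hcw : ∀ a ∈ FxR (cw F α) ⊤, a ∈ FxR (bw F α) (twW W (1 : MulAut W)) := by
    intro a ha
    rw [mem_cw] at ha
    rw [mem_tw]
    intro w
    exact ha w (Subgroup.mem_top _)
  -- products with the elements of `V`
  have hL1 : ∀ (v : V) (ε : MulAut W) (a : A), a ∈ FxR (bw F α) (twW W ε) →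
      α v * a ∈ FxR (bw F α) (twW W ε) := by
    intro v ε a ha
    rw [mem_tw] at ha ⊢
    intro w
    rw [mul_assoc, ← ha w, ← mul_assoc, ← mul_assoc, ← map_mul, ← map_mul, mul_comm]
  have hR1 : ∀ (v : V) (ε : MulAut W) (a : A), a ∈ FxR (bw F α) (twW W ε) →
      a * α v ∈ FxR (bw F α) (twW W ε) := by
    intro v ε a ha
    rw [mem_tw] at ha ⊢
    intro w
    rw [mul_assoc, ← map_mul, mul_comm v, map_mul, ← mul_assoc, ← mul_assoc, ha w]
  have hL2 : ∀ (v : V) (ε : MulAut W) (a : A), a ∈ FxR (bw F α) (twW W ε) →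
      N.nwh v * N.β ε a = N.β ε (α v * a) := by
    intro v ε a ha
    have h1 := N.mul 1 ε (α v) (al_mem_tw v W) a ha
    rw [one_mul] at h1
    rw [N.nwh_apply, h1]
  have hR2 : ∀ (v : V) (ε : MulAut W) (a : A), a ∈ FxR (bw F α) (twW W ε) →
      N.β ε a * N.nwh v = N.β ε (a * α v) := by
    intro v ε a ha
    have h1 := N.mul ε 1 a ha (α v) (al_mem_tw v W)
    rw [mul_one] at h1
    rw [N.nwh_apply, h1]
  have hT : ∀ (w : W) (ε : MulAut W) (a : A), a ∈ FxR (bw F α) (twW W ε) →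
      N.nwh (ε w) * N.β ε a = N.β ε a * N.nwh w := by
    intro w ε a ha
    rw [hL2 _ ε a ha, hR2 _ ε a ha, (mem_tw α W ε).1 ha w]
  -- the ideal is two-sided
  have hI : ∀ b : B, ∀ z ∈ iw F N.nwh W, b * z ∈ iw F N.nwh W := by
    intro b
    obtain ⟨f, hf, hb⟩ := N.spn b
    rw [finsum_eq_sum_of_fintype] at hb
    intro z hz
    rw [← hb, Finset.sum_mul]
    apply Submodule.sum_mem
    intro ε _
    have key : iw F N.nwh W ≤ (iw F N.nwh W).comap (LinearMap.mulLeft F (N.β ε (f ε))) := by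
      apply Submodule.span_le.2
      rintro _ ⟨w, hw, c, rfl⟩
      apply Submodule.subset_span
      refine ⟨(ε ⟨w, hw⟩ : W), (ε ⟨w, hw⟩).2, N.β ε (f ε) * c, ?_⟩
      change N.β ε (f ε) * ((N.nwh w - 1) * c) = _
      have h1 := hT ⟨w, hw⟩ ε (f ε) (hf ε)
      change N.nwh (ε ⟨w, hw⟩) * N.β ε (f ε) = N.β ε (f ε) * N.nwh w at h1
      have h2 : N.β ε (f ε) * (N.nwh w - 1) = (N.nwh (ε ⟨w, hw⟩) - 1) * N.β ε (f ε) := by
        rw [mul_sub, sub_mul, ← h1, mul_one, one_mul]
      rw [← mul_assoc, ← mul_assoc, h2]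
    exact key hz
  -- the decomposition
  have hdec : ∀ d : B, (∀ v, N.nwh v * d = d * N.nwh v) →
      ∃ a ∈ FxR (cw F α) ⊤, d - N.β 1 a ∈ iw F N.nwh W := by
    intro d hd
    obtain ⟨f, hf, hfd'⟩ := N.spn d
    have hcomp : ∀ ε v, N.nwh v * N.β ε (f ε) = N.β ε (f ε) * N.nwh v := by
      intro ε v
      have h1 : ∑ᶠ ε, N.β ε (α v * f ε - f ε * α v) = 0 := by
        rw [finsum_eq_sum_of_fintype]
        rw [finsum_eq_sum_of_fintype] at hfd'
        have h2 : ∀ ε, N.β ε (α v * f ε - f ε * α v) =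
            N.nwh v * N.β ε (f ε) - N.β ε (f ε) * N.nwh v := by
          intro ε
          rw [map_sub, hL2 v ε _ (hf ε), hR2 v ε _ (hf ε)]
        rw [Finset.sum_congr rfl (fun ε _ => h2 ε), Finset.sum_sub_distrib, ← Finset.mul_sum,
          ← Finset.sum_mul, hfd', hd v, sub_self]
      have h3 := N.ind (fun ε => α v * f ε - f ε * α v)
        (fun ε => Submodule.sub_mem _ (hL1 v ε _ (hf ε)) (hR1 v ε _ (hf ε))) h1 ε
      change N.β ε (α v * f ε - f ε * α v) = 0 at h3
      rw [map_sub, ← hL2 v ε _ (hf ε), ← hR2 v ε _ (hf ε)] at h3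
      exact sub_eq_zero.1 h3
    obtain ⟨a', ha', ha1⟩ := hLnt ℓ F V E A B φ α W N hV hL.per (f 1) (hf 1) (by
      rw [mem_cw]
      intro v _
      exact hcomp 1 v)
    refine ⟨a', ha', ?_⟩
    rw [ha1, ← hfd', finsum_eq_sum_of_fintype,
      ← Finset.add_sum_erase Finset.univ (fun ε => N.β ε (f ε)) (Finset.mem_univ 1),
      add_sub_cancel_left]
    apply Submodule.sum_mem
    intro ε hε
    have hε1 : ε ≠ 1 := Finset.ne_of_mem_erase hε
    obtain ⟨w, hw⟩ : ∃ w : W, ε w ≠ w := by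
      by_contra hcon
      exact hε1 (MulEquiv.ext fun w => not_not.1 fun hne => hcon ⟨w, hne⟩)
    have h4 : N.nwh (ε w) * N.β ε (f ε) = N.nwh w * N.β ε (f ε) := by
      rw [hT w ε _ (hf ε), hcomp ε]
    have h5 : N.β ε (f ε) * N.nwh (ε w) = N.β ε (f ε) * N.nwh w := by
      rw [← hcomp ε, ← hcomp ε, h4]
    apply dmem ℓ N.nwh W hV lam x y hRF ((ε w : V) * (w : V)⁻¹)
      (W.mul_mem (ε w).2 (W.inv_mem w.2)) _ _ _ hI
    · intro h6
      exact hw (Subtype.ext (mul_inv_eq_one.1 h6))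
    · rw [map_mul, ← mul_assoc, h5, mul_assoc, ← map_mul, mul_inv_cancel, map_one, mul_one]
  -- units
  have hun : ∀ d : B, (∀ v, N.nwh v * d = d * N.nwh v) → ∀ a ∈ FxR (cw F α) ⊤,
      d - N.β 1 a ∈ iw F N.nwh W → (∃ c ∈ FxR (cw F α) ⊤, a * c = 1 ∧ c * a = 1) →
      ∃ z, d * z = 1 ∧ z * d = 1 := by
    rintro d hd a ha hda ⟨c, hc, hac, hca⟩
    have h1 : N.β 1 a * N.β 1 c = 1 := by
      have := N.mul 1 1 a (hcw a ha) c (hcw c hc)
      rw [mul_one, hac, N.one] at this
      exact this.symm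
    have h2 : N.β 1 c * N.β 1 a = 1 := by
      have := N.mul 1 1 c (hcw c hc) a (hcw a ha)
      rw [mul_one, hca, N.one] at this
      exact this.symm
    have hvc : ∀ v, N.nwh v * N.β 1 c = N.β 1 c * N.nwh v := by
      intro v
      rw [hL2 v 1 c (hcw c hc), hR2 v 1 c (hcw c hc), mem_cw.1 hc v (Subgroup.mem_top _)]
    have hva : ∀ v, N.nwh v * N.β 1 a = N.β 1 a * N.nwh v := by
      intro v
      rw [hL2 v 1 a (hcw a ha), hR2 v 1 a (hcw a ha), mem_cw.1 ha v (Subgroup.mem_top _)]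
    have h3 : N.β 1 c * (d - N.β 1 a) ∈ iw F N.nwh W := iw_mulL N.nwh W hda _ hvc
    obtain ⟨u, hu1, hu2⟩ := unt hNak ℓ N.nwh W hV h3 (by
      intro v
      rw [← mul_assoc, hvc, mul_assoc, mul_assoc, mul_sub, sub_mul, hd, hva])
    have h4 : d = N.β 1 a * (1 + N.β 1 c * (d - N.β 1 a)) := by
      rw [mul_add, mul_one, ← mul_assoc, h1, one_mul, add_sub_cancel]
    refine ⟨u * N.β 1 c, ?_, ?_⟩
    · rw [h4, mul_assoc, ← mul_assoc _ u, hu1, one_mul, h1]
    · have h5 : u * N.β 1 c * (N.β 1 a * (1 + N.β 1 c * (d - N.β 1 a))) = 1 := by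
        rw [mul_assoc, ← mul_assoc (N.β 1 c) (N.β 1 a), h2, one_mul, hu2]
      rw [← h4] at h5
      exact h5
  have hcz : ∀ z : B, z ∈ Cz F N.nwh ⊤ ↔ ∀ v, N.nwh v * z = z * N.nwh v := by
    intro z
    unfold Cz
    rw [Subalgebra.mem_centralizer_iff]
    constructor
    · intro h v
      exact h _ ⟨v, Subgroup.mem_top v, rfl⟩
    · rintro h _ ⟨v, _, rfl⟩
      exact h v
  have hcza : ∀ z : A, z ∈ Cz F α ⊤ ↔ z ∈ FxR (cw F α) ⊤ := by
    intro z
    unfold Cz
    rw [Subalgebra.mem_centralizer_iff, mem_cw]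
    constructor
    · intro h v hv
      exact h _ ⟨v, hv, rfl⟩
    · rintro h _ ⟨v, hv, rfl⟩
      exact h v hv
  have hlift : ∀ d : Cz F N.nwh ⊤, (∃ z, (d : B) * z = 1 ∧ z * (d : B) = 1) → IsUnit d := by
    rintro d ⟨z, hz1, hz2⟩
    have hz : z ∈ Cz F N.nwh ⊤ := by
      rw [hcz]
      intro v
      have hdv := (hcz d).1 d.2 v
      calc N.nwh v * z = (z * (d : B)) * N.nwh v * z := by rw [hz2, one_mul]
        _ = z * ((d : B) * N.nwh v) * z := by rw [mul_assoc z]
        _ = z * (N.nwh v * (d : B)) * z := by rw [hdv]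
        _ = z * N.nwh v * ((d : B) * z) := by simp only [mul_assoc]
        _ = z * N.nwh v := by rw [hz1, mul_one]
    exact ⟨⟨d, ⟨z, hz⟩, Subtype.ext hz1, Subtype.ext hz2⟩, rfl⟩
  have hloc := hL.loc
  have hnt : Nontrivial B := by
    by_contra hcon
    rw [not_nontrivial_iff_subsingleton] at hcon
    exact hlam (by rw [Subsingleton.elim (∑ v, N.nwh v) 0, map_zero])
  refine { toNontrivial := ?_, isUnit_or_isUnit_of_add_one := ?_ }
  · refine ⟨⟨0, 1, ?_⟩⟩
    intro h
    exact zero_ne_one (congrArg Subtype.val h)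
  · intro d e hde
    have hdc := (hcz d).1 d.2
    have hec := (hcz e).1 e.2
    obtain ⟨a, ha, hda⟩ := hdec d hdc
    have haz : a ∈ Cz F α ⊤ := (hcza a).2 ha
    have ha2 : (1 - a) ∈ Cz F α ⊤ := (Cz F α ⊤).sub_mem (Cz F α ⊤).one_mem haz
    have hsum : (⟨a, haz⟩ : Cz F α ⊤) + ⟨1 - a, ha2⟩ = 1 := Subtype.ext (add_sub_cancel a 1)
    rcases hloc.isUnit_or_isUnit_of_add_one hsum with hu | hu
    · left
      apply hlift
      obtain ⟨u, hu⟩ := hu
      refine hun d hdc a ha hda ⟨((u⁻¹ : (Cz F α ⊤)ˣ) : Cz F α ⊤),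
        (hcza _).1 ((u⁻¹ : (Cz F α ⊤)ˣ) : Cz F α ⊤).2, ?_, ?_⟩
      · have h1 := congrArg Subtype.val u.mul_inv
        rw [hu] at h1
        exact h1
      · have h1 := congrArg Subtype.val u.inv_mul
        rw [hu] at h1
        exact h1
    · right
      apply hlift
      obtain ⟨u, hu⟩ := hu
      have he : (e : B) = 1 - (d : B) := by
        have := congrArg Subtype.val hde
        change (d : B) + (e : B) = 1 at this
        rw [← this, add_sub_cancel_left]
      refine hun e hec (1 - a) ((hcza _).1 ha2) ?_ ⟨((u⁻¹ : (Cz F α ⊤)ˣ) : Cz F α ⊤),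
        (hcza _).1 ((u⁻¹ : (Cz F α ⊤)ˣ) : Cz F α ⊤).2, ?_, ?_⟩
      · have h2 : (e : B) - N.β 1 (1 - a) = -((d : B) - N.β 1 a) := by
          rw [he, map_sub, N.one]
          abel
        rw [h2]
        exact Submodule.neg_mem _ hda
      · have h1 := congrArg Subtype.val u.mul_inv
        rw [hu] at h1
        exact h1
      · have h1 := congrArg Subtype.val u.inv_mul
        rw [hu] at h1
        exact h1

end Pool.Agent.PSS.S5.H62
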