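import Pool.Agent.PSS.StmtsOB
import Pool.Agent.Helper47_PSS.STN

/-! Squad PSS (MP_6a3f1a_al), block OB, row BIA (helper62): the obstruction is a cocycle and
satisfies the Bianchi identity. -/

open scoped BigOperators TensorProduct

noncomputable section

namespace Pool.Agent.PSS.H62

open Pool.Agent.PFD.D2 (Cdv FibG)
open Pool.Agent.PFD.D2b (FrR)
open Finset

theorem bia (TRA : TraStmt) : BiaStmt := by
  intro R K V A B κ Ω _ _ _ _ _ _ _ _ _ _ _ _ _ _ W α lam x y b c C P m N hT hI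
  obtain ⟨⟨D, hD⟩, hW2, hNr⟩ := TRA K V B (ia C.i α) W P m hT
  -- the terms with both indices `≤ N`
  have hterm : ∀ p : ℕ × ℕ, p.1 ≤ N → p.2 ≤ N → ∀ a₁ a₂ a₃,
      In C.i (m p.1 (m p.2 (C.i a₁) (C.i a₂)) (C.i a₃) -
        m p.1 (C.i a₁) (m p.2 (C.i a₂) (C.i a₃))) := by
    intro p h1 h2 a₁ a₂ a₃
    obtain ⟨e1, he1⟩ := hI p.2 h2 a₁ a₂
    obtain ⟨e2, he2⟩ := hI p.2 h2 a₂ a₃
    obtain ⟨e3, he3⟩ := hI p.1 h1 e1 a₃
    obtain ⟨e4, he4⟩ := hI p.1 h1 a₁ e2
    refine ⟨e3 - e4, ?_⟩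
    show C.i (e3 - e4) = _
    rw [map_sub, he3, he4, he1, he2]
  refine ⟨⟨hW2 (N + 1), hNr N, ?_⟩, ?_, ?_⟩
  · intro a₁ a₂ a₃
    have h := H47.dm_dl D N (C.i a₁) (C.i a₂) (C.i a₃)
    rw [hD] at h
    rw [h]
    refine H47.stn_in_sum (C.i : A →+* B) _ _ fun p hp => ?_
    obtain ⟨hp1, hp2, hp3⟩ := Finset.mem_filter.1 hp
    have hp4 := Finset.HasAntidiagonal.mem_antidiagonal.1 hp1
    exact hterm p (by omega) (by omega) a₁ a₂ a₃
  · intro hN
    refine ⟨-m (N + 2), ?_, ?_, ?_⟩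
    · intro w hw x y
      obtain ⟨h1, h2, h3⟩ := hW2 (N + 2) w hw x y
      have e : ∀ s t : B, (-m (N + 2)) s t = -(m (N + 2) s t) := fun _ _ => rfl
      refine ⟨?_, ?_, ?_⟩
      · change (-m (N + 2)) _ _ = _ * (-m (N + 2)) _ _
        rw [e, e, mul_neg]
        exact congrArg Neg.neg h1
      · change (-m (N + 2)) _ _ = (-m (N + 2)) _ _
        rw [e, e]
        exact congrArg Neg.neg h2
      · change (-m (N + 2)) _ _ = (-m (N + 2)) _ _ * _
        rw [e, e, neg_mul]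
        exact congrArg Neg.neg h3
    · obtain ⟨h1, h2⟩ := hNr (N + 1)
      have e : ∀ s t : B, (-m (N + 2)) s t = -(m (N + 2) s t) := fun _ _ => rfl
      refine ⟨fun x => ?_, fun x => ?_⟩
      · change (-m (N + 2)) _ _ = _
        rw [e]
        exact neg_eq_zero.2 (h1 x)
      · change (-m (N + 2)) _ _ = _
        rw [e]
        exact neg_eq_zero.2 (h2 x)
    · intro a₁ a₂ a₃
      have h := H47.dm_dl D (N + 1) (C.i a₁) (C.i a₂) (C.i a₃)
      rw [hD] at h
      let T : Finset (ℕ × ℕ) :=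
        (antidiagonal (N + 2)).filter (fun p => p.1 ≠ 0 ∧ p.2 ≠ 0)
      let g : ℕ × ℕ → B := fun p => m p.1 (m p.2 (C.i a₁) (C.i a₂)) (C.i a₃) -
        m p.1 (C.i a₁) (m p.2 (C.i a₂) (C.i a₃))
      have hs : dl (fun a b => m (N + 2) a b) (C.i a₁) (C.i a₂) (C.i a₃) = ∑ p ∈ T, g p := h
      have h1 := Finset.sum_filter_add_sum_filter_not T
        (fun p : ℕ × ℕ => 2 ≤ p.1 ∧ 2 ≤ p.2) g
      have h2 : T.filter (fun p : ℕ × ℕ => ¬ (2 ≤ p.1 ∧ 2 ≤ p.2)) =
          {(1, N + 1), (N + 1, 1)} := by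
        ext ⟨i, j⟩
        simp only [T, Finset.mem_filter, Finset.HasAntidiagonal.mem_antidiagonal,
          Finset.mem_insert, Finset.mem_singleton, Prod.mk.injEq]
        omega
      rw [h2, Finset.sum_pair (by
        intro h0
        have := congrArg Prod.fst h0
        change 1 = N + 1 at this
        omega)] at h1
      obtain ⟨e, he⟩ := H47.stn_in_sum (C.i : A →+* B)
        (T.filter (fun p : ℕ × ℕ => 2 ≤ p.1 ∧ 2 ≤ p.2)) g (fun p hp => by
          obtain ⟨hp1, hp2, hp3⟩ := Finset.mem_filter.1 hp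
          have hp4 := Finset.HasAntidiagonal.mem_antidiagonal.1 (Finset.mem_filter.1 hp1).1
          exact hterm p (by omega) (by omega) a₁ a₂ a₃)
      refine ⟨-e, ?_⟩
      have he' : C.i e = ∑ p ∈ T.filter (fun p : ℕ × ℕ => 2 ≤ p.1 ∧ 2 ≤ p.2), g p := he
      change C.i (-e) = _
      rw [map_neg, he']
      have h3 : dl (fun a b => (-m (N + 2)) a b) (C.i a₁) (C.i a₂) (C.i a₃) =
          -dl (fun a b => m (N + 2) a b) (C.i a₁) (C.i a₂) (C.i a₃) := by
        have e : ∀ s t : B, (-m (N + 2)) s t = -(m (N + 2) s t) := fun _ _ => rfl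
        simp only [dl, e]
        noncomm_ring
      have h4 : brk (fun a b => m 1 a b) (fun a b => m (N + 1) a b) (C.i a₁) (C.i a₂) (C.i a₃) =
          g (1, N + 1) + g (N + 1, 1) := by
        simp only [brk, g]
        abel
      rw [h3, h4, hs, ← h1]
      abel
  · intro x y
    have h := hT.pm 1 x y
    have ha : antidiagonal 1 = {((0 : ℕ), (1 : ℕ)), (1, 0)} := rfl
    rw [ha, Finset.sum_pair (by simp), Finset.sum_pair (by simp)] at h
    have hm0 : m 0 x y = x * y := by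
      rw [← hD]
      exact D.m0 x y
    change P 0 x * P 1 y + P 1 x * P 0 y = P 0 (m 1 x y) + P 1 (m 0 x y) at h
    rw [hT.p0, hm0] at h
    change x * P 1 y + P 1 x * y = m 1 x y + P 1 (x * y) at h
    change m 1 x y = x * P 1 y - P 1 (x * y) + P 1 x * y
    rw [← sub_eq_iff_eq_add] at h
    rw [← h]
    abel

end Pool.Agent.PSS.H62
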