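import Pool.Agent.PSS.StmtsS2
import Pool.Agent.Helper20_PSS.FPX

/-!
# Squad PSS, block S2, row NDA: nondegeneracy modulo the Brauer kernel and the augmentation ideal
-/

set_option autoImplicit false

open scoped BigOperators

namespace Pool.Agent.PSS.S2.H62

open Pool.Agent.PFC (tw IsTv)
open Pool.Agent.PFD.D2b (FrR)
open Pool.Agent.PSS Pool.Agent.PSS.S2

/-- representatives of the left orbits -/
theorem exists_rep (V Ω : Type) [CommGroup V] [MulAction (V × V) Ω] :
    ∃ (rep : Ω → Ω) (t : Ω → V), (∀ ω, ((t ω, 1) : V × V) • rep ω = ω) ∧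
      ∀ (u : V) (ω : Ω), rep (((u, 1) : V × V) • ω) = rep ω := by
  classical
  let act : MulAction V Ω := MulAction.compHom Ω (MonoidHom.inl V V)
  have hact : ∀ (u : V) (ω : Ω), u • ω = ((u, 1) : V × V) • ω := fun _ _ => rfl
  let s : Setoid Ω := MulAction.orbitRel V Ω
  let rep : Ω → Ω := fun ω => (Quotient.mk s ω).out
  have h1 : ∀ ω, ∃ t : V, t • rep ω = ω := by
    intro ω
    have h2 : s.r (rep ω) ω := Quotient.mk_out (s := s) ω
    obtain ⟨u, hu⟩ := (h2 : rep ω ∈ MulAction.orbit V ω)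
    refine ⟨u⁻¹, ?_⟩
    rw [← hu]
    exact inv_smul_smul u ω
  choose t ht using h1
  refine ⟨rep, t, fun ω => ht ω, fun u ω => ?_⟩
  have h3 : Quotient.mk s (u • ω) = Quotient.mk s ω := by
    apply Quotient.sound
    exact ⟨u, rfl⟩
  show (Quotient.mk s (u • ω)).out = (Quotient.mk s ω).out
  rw [h3]

theorem nda : NdaStmt := by
  classical
  intro F V E A K Ω _ _ _ _ _ _ _ _ _ φ α lam x y b c a hRF hP ha hd
  obtain ⟨⟨hb, hc, hfr⟩, hst⟩ := hP
  have nd : ∀ z : A, (∀ d, lam (z * d) = 0) → z = 0 := by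
    intro z hz
    rw [← hRF.e1 z]
    refine Finset.sum_eq_zero fun k _ => Finset.sum_eq_zero fun v _ => ?_
    rw [hRF.sym, hz, zero_smul]
  have hbw : ∀ (u v : V) (m : A), bw F α (u, v) m = α u * m * α v⁻¹ := by
    intro u v m
    show α u * (m * α v⁻¹) = _
    rw [mul_assoc]
  have hb1 : ∀ (u : V) (ω : Ω), b (((u, 1) : V × V) • ω) = α u * b ω := by
    intro u ω
    rw [hb, hbw, inv_one, map_one, mul_one]
  have hcu : ∀ (u : V) (ω : Ω) (m : A), c ω (α u * m) = c (((u⁻¹, 1) : V × V) • ω) m := by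
    intro u ω m
    rw [← hc (u⁻¹, 1) ω (α u * m), hbw, inv_one, map_one, mul_one, ← mul_assoc, ← map_mul,
      inv_mul_cancel, map_one, one_mul]
  have hfree : ∀ (u : V) (ω : Ω), ((u, 1) : V × V) • ω = ω → u = 1 := by
    intro u ω h
    obtain ⟨e, S, hS⟩ := hst ω
    have h1 : ((u, 1) : V × V) ∈ MulAction.stabilizer (V × V) ω := h
    rw [hS] at h1
    obtain ⟨s, -, hs⟩ := h1
    have h2 : φ e s = u := congrArg Prod.fst hs
    have h3 : s = 1 := congrArg Prod.snd hs
    rw [← h2, h3, map_one]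
  have hcomm : ∀ (u v : V) (ω : Ω), (∀ v : V, ((v, v) : V × V) • ω = ω) →
      ((v, v) : V × V) • ((u, 1) : V × V) • ω = ((u, 1) : V × V) • ω := by
    intro u v ω h
    rw [smul_smul, mul_comm, ← smul_smul, h v]
  have hm : ∀ u : V, ((u⁻¹, 1) : V × V) * ((u, 1) : V × V) = 1 := by
    intro u
    exact Prod.ext (inv_mul_cancel u) (one_mul 1)
  -- the coefficients at a fixed point
  have h1 : ∀ ω : Ω, (∀ v : V, ((v, v) : V × V) • ω = ω) →
      ∑ u : V, c (((u, 1) : V × V) • ω) a = 0 := by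
    intro ω hω
    have hcc : ∀ (v : V) (d : A), c ω (α v * d) = c ω (d * α v) := by
      intro v d
      have h := hc (v, v) ω (d * α v)
      rw [hω, hbw] at h
      rw [← h, ← mul_assoc (α v) d, mul_assoc (α v * d) (α v), ← map_mul, mul_inv_cancel,
        map_one, mul_one]
    set ch : A := ∑ k, ∑ v, c ω (x k * α v) • (α v⁻¹ * y k) with hch
    have hl : ∀ d, lam (ch * d) = c ω d := by
      intro d
      conv_rhs => rw [← hRF.e1 d]
      simp only [hch, Finset.sum_mul, map_sum, smul_mul_assoc, map_smul, smul_eq_mul]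
      refine Finset.sum_congr rfl fun k _ => Finset.sum_congr rfl fun v _ => ?_
      rw [mul_comm]
    have hcv : CV α ch := by
      intro v
      have h := nd (α v * ch - ch * α v) (fun d => by
        rw [sub_mul, map_sub, mul_assoc (α v), hRF.sym (α v), mul_assoc ch d, hl,
          mul_assoc ch, hl, hcc, sub_self])
      exact sub_eq_zero.1 h
    have h2 := hd ch hcv
    rw [hRF.sym, hl] at h2
    have h3 : c ω (sg α * a) = ∑ u : V, c (((u⁻¹, 1) : V × V) • ω) a := by
      unfold sg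
      rw [Finset.sum_mul, map_sum]
      exact Finset.sum_congr rfl fun u _ => hcu u ω a
    rw [h3] at h2
    rw [← h2]
    exact (Equiv.sum_comp (Equiv.inv V) (fun u => c (((u, 1) : V × V) • ω) a)).symm
  -- the fixed points
  set O0 : Finset Ω := Finset.univ.filter fun ω => ∀ v : V, ((v, v) : V × V) • ω = ω with hO0
  have hmem : ∀ ω, ω ∈ O0 ↔ ∀ v : V, ((v, v) : V × V) • ω = ω := by
    intro ω
    rw [hO0, Finset.mem_filter]
    exact ⟨fun h => h.2, fun h => ⟨Finset.mem_univ _, h⟩⟩
  have h4 : ∑ ω, c ω a • b ω - ∑ ω ∈ O0, c ω a • b ω ∈ BKR (cw F α) ⊤ := by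
    let act : MulAction V Ω :=
      MulAction.compHom Ω (MonoidHom.prod (MonoidHom.id V) (MonoidHom.id V))
    refine Pool.Agent.PSS.H20.fpx F V A Ω (cw F α) ⊤ (fun ω => c ω a • b ω) O0 ?_ ?_
    · intro v _ ω
      show c (((v, v) : V × V) • ω) a • b (((v, v) : V × V) • ω) = bw F α (v, v) (c ω a • b ω)
      rw [map_smul, hb]
      congr 1
      have h := hc (v, v) ω a
      rw [hbw, ha v, mul_assoc, ← map_mul, mul_inv_cancel, map_one, mul_one] at h
      exact h
    · intro ω
      rw [hmem]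
      exact ⟨fun h v _ => h v, fun h v => h v (Subgroup.mem_top v)⟩
  have h5 : ∑ ω ∈ O0, c ω a • b ω ∈ AgI F α := by
    obtain ⟨rep, t, ht, hrep⟩ := exists_rep V Ω
    have hrr : ∀ ω, rep (rep ω) = rep ω := by
      intro ω
      rw [← hrep (t ω) (rep ω), ht]
    have hri : ∀ ω, rep ω = (((t ω)⁻¹, 1) : V × V) • ω := by
      intro ω
      calc rep ω = ((((t ω)⁻¹, 1) : V × V) * ((t ω, 1) : V × V)) • rep ω := by
            rw [hm, one_smul]
        _ = (((t ω)⁻¹, 1) : V × V) • ω := by rw [mul_smul, ht]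
    have hr0 : ∀ ω ∈ O0, rep ω ∈ O0 := by
      intro ω hω
      rw [hmem] at hω ⊢
      intro v
      rw [hri ω]
      exact hcomm _ v ω hω
    have e1 : ∑ ω ∈ O0, c ω a • b ω =
        ∑ ω ∈ O0, c ω a • ((α (t ω) - 1) * b (rep ω)) + ∑ ω ∈ O0, c ω a • b (rep ω) := by
      rw [← Finset.sum_add_distrib]
      refine Finset.sum_congr rfl fun ω _ => ?_
      rw [← smul_add, sub_mul, one_mul, sub_add_cancel, ← hb1, ht]
    have e2 : ∑ ω ∈ O0, c ω a • b (rep ω) = 0 := by
      rw [← Finset.sum_fiberwise O0 rep]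
      refine Finset.sum_eq_zero fun ρ _ => ?_
      have e3 : ∑ ω ∈ O0 with rep ω = ρ, c ω a • b (rep ω) =
          (∑ ω ∈ O0 with rep ω = ρ, c ω a) • b ρ := by
        rw [Finset.sum_smul]
        refine Finset.sum_congr rfl fun ω hω => ?_
        rw [(Finset.mem_filter.1 hω).2]
      rw [e3]
      by_cases hne : (O0.filter fun ω => rep ω = ρ).Nonempty
      · obtain ⟨ω0, hω0⟩ := hne
        rw [Finset.mem_filter] at hω0
        have hρ : ρ ∈ O0 := by
          rw [← hω0.2]
          exact hr0 _ hω0.1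
        have hρr : rep ρ = ρ := by
          rw [← hω0.2, hrr]
        have e4 : (O0.filter fun ω => rep ω = ρ) =
            Finset.univ.image fun u : V => ((u, 1) : V × V) • ρ := by
          ext ω
          rw [Finset.mem_filter, Finset.mem_image]
          constructor
          · rintro ⟨hω, h⟩
            refine ⟨t ω, Finset.mem_univ _, ?_⟩
            rw [← h, ht]
          · rintro ⟨u, -, rfl⟩
            refine ⟨?_, ?_⟩
            · rw [hmem]
              intro v
              exact hcomm u v ρ ((hmem ρ).1 hρ)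
            · rw [hrep, hρr]
        rw [e4, Finset.sum_image]
        · rw [h1 ρ ((hmem ρ).1 hρ), zero_smul]
        · intro u _ v _ huv
          have h : (((v⁻¹ * u, 1) : V × V)) • ρ = ρ := by
            have h' : ((v⁻¹ * u, 1) : V × V) = ((v⁻¹, 1) : V × V) * ((u, 1) : V × V) := by
              simp
            have huv' : ((u, 1) : V × V) • ρ = ((v, 1) : V × V) • ρ := huv
            rw [h', ← smul_smul, huv', smul_smul, hm, one_smul]
          have h2 := hfree _ _ h
          exact (inv_mul_eq_one.1 h2).symm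
      · rw [Finset.not_nonempty_iff_eq_empty] at hne
        rw [hne, Finset.sum_empty, zero_smul]
    rw [e1, e2, add_zero]
    refine Submodule.sum_mem _ fun ω hω => Submodule.smul_mem _ _ (Submodule.subset_span ?_)
    refine ⟨t ω, b (rep ω), ?_, rfl⟩
    intro v _
    show bw F α (v, v) (b (rep ω)) = b (rep ω)
    rw [← hb, (hmem _).1 (hr0 ω hω) v]
  rw [hfr a] at h4
  have h6 : a = (a - ∑ ω ∈ O0, c ω a • b ω) + ∑ ω ∈ O0, c ω a • b ω := by abel
  rw [h6]
  exact Submodule.add_mem_sup h4 h5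

end Pool.Agent.PSS.S2.H62
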